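import Mathlib

namespace Pool.Agent.Results.MP_d99131_an.NoLimit

open Filter Topology

open Classical in
/-- Upper density of a set of positive integers. -/
noncomputable def upperDens (B : Set ℕ) : ℝ :=
  limsup (fun N : ℕ => (((Finset.Icc 1 N).filter (· ∈ B)).card : ℝ) / N) atTop

section
variable {X : Type} [NormedAddCommGroup X] [NormedSpace ℂ X]

/-- Property A for a sequence of operators. -/
def PropA (S : ℕ → X →L[ℂ] X) : Prop :=
  ∀ U : Set X, IsOpen U → U.Nonempty → ∃ x : X, 0 < upperDens {n | S n x ∈ U}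

/-- Topological multiple recurrence. -/
def MultRec (T : X →L[ℂ] X) : Prop :=
  ∀ U : Set X, IsOpen U → U.Nonempty → ∀ m : ℕ, 1 ≤ m →
    ∃ k : ℕ, 1 ≤ k ∧ ∃ x : X, ∀ j ≤ m, (T ^ (j * k)) x ∈ U
end

/-- Good sequences. -/
def Good (l : ℕ → ℂ) : Prop :=
  ∀ (X : Type) [NormedAddCommGroup X] [NormedSpace ℂ X] [CompleteSpace X]
    [TopologicalSpace.SeparableSpace X], ¬ FiniteDimensional ℂ X →
    ∀ T : X →L[ℂ] X, PropA (fun n => l n • T ^ n) → MultRec T

noncomputable def r (n : ℕ) : ℝ := 1 / ((2 ^ (Nat.log 2 n + 1)).factorial : ℝ)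

theorem r_pos (n : ℕ) : 0 < r n := by unfold r; positivity

theorem r_le (n : ℕ) : r n ≤ 1 / (n.factorial : ℝ) := by
  unfold r
  apply one_div_le_one_div_of_le (by positivity)
  exact_mod_cast Nat.factorial_le (Nat.lt_pow_succ_log_self (by norm_num) n).le

theorem good : Good (fun n => (r n : ℂ)) := by
  intro X _ _ _ _ hX T hA
  exfalso
  haveI : Nontrivial X := by
    by_contra h
    rw [not_nontrivial_iff_subsingleton] at h
    exact hX inferInstance
  obtain ⟨y, hy⟩ := exists_ne (0 : X)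
  have hy' : 0 < ‖y‖ / 2 := by have := norm_pos_iff.mpr hy; positivity
  obtain ⟨x, hx⟩ := hA {z | ‖y‖ / 2 < ‖z‖} (isOpen_lt continuous_const continuous_norm)
    ⟨y, by simp only [Set.mem_ofPred_eq]; linarith⟩
  have h1 : Tendsto (fun n : ℕ => ‖T‖ ^ n / (n.factorial : ℝ) * ‖x‖) atTop (𝓝 0) := by
    simpa using (FloorSemiring.tendsto_pow_div_factorial_atTop ‖T‖).mul_const ‖x‖
  obtain ⟨M, hM⟩ := eventually_atTop.mp (h1.eventually (gt_mem_nhds hy'))
  have h2 : ∀ n ≥ M + 1, ¬ (‖y‖ / 2 < ‖((r n : ℂ) • T ^ n) x‖) := by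
    intro n hn
    have := hM n (by omega)
    have h3 : ‖((r n : ℂ) • T ^ n) x‖ ≤ ‖T‖ ^ n / (n.factorial : ℝ) * ‖x‖ := by
      rw [ContinuousLinearMap.smul_apply, norm_smul, Complex.norm_real, Real.norm_of_nonneg
        (r_pos n).le, div_eq_mul_one_div, mul_comm (‖T‖ ^ n), mul_assoc]
      refine mul_le_mul (r_le n) (((T ^ n).le_opNorm x).trans ?_) (norm_nonneg _) (by positivity)
      exact mul_le_mul_of_nonneg_right (norm_pow_le' T (by omega)) (norm_nonneg _)
    linarith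
  refine absurd hx (not_lt.mpr (le_of_eq (Tendsto.limsup_eq ?_)))
  refine squeeze_zero (fun N => by positivity) (fun N => ?_)
    (tendsto_const_div_atTop_nhds_zero_nat ((M + 1 : ℕ) : ℝ))
  refine div_le_div_of_nonneg_right ?_ (Nat.cast_nonneg N)
  rw [Nat.cast_le]
  refine (Finset.card_le_card (t := Finset.range (M + 1)) fun n hn => ?_).trans (by simp)
  rw [Finset.mem_filter] at hn
  by_contra h
  exact h2 n (by simpa using h) hn.2

theorem result : ∃ l : ℕ → ℂ, (∀ n, l n ≠ 0) ∧ Good l ∧ ∀ τ : ℕ, 1 ≤ τ →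
    ¬ ∃ a : ENNReal, Tendsto (fun n => ENNReal.ofReal (‖l n‖ / ‖l (n + τ)‖)) atTop (𝓝 a) := by
  refine ⟨fun n => r n, fun n => Complex.ofReal_ne_zero.mpr (r_pos n).ne', good, fun τ hτ ⟨a, ha⟩ => ?_⟩
  simp only [Complex.norm_real, Real.norm_of_nonneg (r_pos _).le] at ha
  have hp : Tendsto (fun k : ℕ => 2 ^ k) atTop atTop :=
    tendsto_pow_atTop_atTop_of_one_lt one_lt_two
  have h1 : a = 1 := by
    refine tendsto_nhds_unique (ha.comp hp) (tendsto_const_nhds.congr' ?_)
    filter_upwards [eventually_ge_atTop τ] with k hk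
    have : τ < 2 ^ k := lt_of_lt_of_le Nat.lt_two_pow_self (Nat.pow_le_pow_right two_pos hk)
    have e : Nat.log 2 (2 ^ k + τ) = Nat.log 2 (2 ^ k) := by
      rw [Nat.log_pow one_lt_two]
      exact Nat.log_eq_of_pow_le_of_lt_pow (by omega) (by rw [pow_succ]; omega)
    have e2 : r (2 ^ k + τ) = r (2 ^ k) := by unfold r; rw [e]
    simp [e2, div_self (r_pos _).ne']
  have hq : Tendsto (fun k : ℕ => 2 ^ (k + 1) - 1) atTop atTop :=
    (tendsto_sub_atTop_nat 1).comp (hp.comp (tendsto_add_atTop_nat 1))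
  have h2 : (2 : ENNReal) ≤ a := by
    refine ge_of_tendsto' (ha.comp hq) fun k => ?_
    have hk : 0 < 2 ^ k := by positivity
    have e : Nat.log 2 (2 ^ (k + 1) - 1) = k :=
      Nat.log_eq_of_pow_le_of_lt_pow (by rw [pow_succ]; omega) (by rw [pow_succ]; omega)
    have e3 : k + 1 ≤ Nat.log 2 (2 ^ (k + 1) - 1 + τ) :=
      Nat.le_log_of_pow_le one_lt_two (by rw [pow_succ]; omega)
    have e4 : 2 * (2 ^ (k + 1)).factorial ≤ (2 ^ (Nat.log 2 (2 ^ (k + 1) - 1 + τ) + 1)).factorial := by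
      have h5 : 2 ^ (k + 1) + 1 ≤ 2 ^ (Nat.log 2 (2 ^ (k + 1) - 1 + τ) + 1) := by
        have := Nat.pow_le_pow_right two_pos (Nat.succ_le_succ e3)
        rw [pow_succ 2 (k + 1)] at this
        rw [pow_succ] at *
        omega
      refine le_trans ?_ (Nat.factorial_le h5)
      rw [Nat.factorial_succ]
      exact Nat.mul_le_mul_right _ (by rw [pow_succ]; omega)
    show (2 : ENNReal) ≤ ENNReal.ofReal _
    rw [← ENNReal.ofReal_ofNat]
    apply ENNReal.ofReal_le_ofReal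
    unfold r
    rw [e, div_div_div_eq, one_mul, mul_one, le_div_iff₀ (by positivity)]
    exact_mod_cast e4
  rw [h1] at h2
  norm_num at h2

end Pool.Agent.Results.MP_d99131_an.NoLimit
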